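import Pool.Agent.H26.OBdd

set_option autoImplicit false

namespace Pool.Agent.Results.MP_b00c97_gt.Analytic

open Set Topology Filter Pointwise Pool.Agent.H26.OBdd

universe u v

/-- `G` is `o`-bounded. -/
def OBounded (G : Type u) [Group G] [TopologicalSpace G] : Prop :=
  ∀ U : ℕ → Set G, (∀ n, U n ∈ 𝓝 (1 : G)) →
    ∃ F : ℕ → Finset G, ⋃ n, (F n : Set G) * U n = univ

/-- Player I has a winning strategy in `OF(G)`: a rule `σ` giving a neighbourhood of the identity
from the list of the earlier moves of player II, such that no play of II covers `G`. -/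
def PlayerIWins (G : Type u) [Group G] [TopologicalSpace G] : Prop :=
  ∃ σ : List (Finset G) → Set G, (∀ l, σ l ∈ 𝓝 (1 : G)) ∧
    ∀ F : ℕ → Finset G, ⋃ n, (F n : Set G) * σ ((List.range n).map F) ≠ univ

/-- No analytic `o`-bounded topological group (SIN or not) admits a winning strategy for
player I in the Open-Finite game. -/
theorem result (G : Type u) [Group G] [TopologicalSpace G] [IsTopologicalGroup G]
    [TopologicalSpace.MetrizableSpace G]
    (P : Type v) [MetricSpace P] [CompleteSpace P] [TopologicalSpace.SeparableSpace P]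
    (ψ : P → G) (hψ : Continuous ψ) (hψs : Function.Surjective ψ)
    (hG : OBounded G) : ¬ PlayerIWins G := by
  classical
  have : Nonempty P := ⟨(hψs 1).choose⟩
  have : SecondCountableTopology P := UniformSpace.secondCountable_of_separable P
  obtain ⟨π, hπ, hπs⟩ := PolishSpace.exists_nat_nat_continuous_surjective P
  have : FirstCountableTopology G := by
    letI := TopologicalSpace.metrizableSpaceMetric G
    infer_instance
  obtain ⟨d, h⟩ := exists_LD (G := G)
  rcases dichotomy h (ψ ∘ π) (hψ.comp hπ) with ⟨K, hK, hKb⟩ | ⟨c, hc, hF⟩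
  · rintro ⟨σ, hσ, hwin⟩
    rw [(hψs.comp hπs).range_eq] at hK
    have h1 : ∀ (n : ℕ) (l : List (Finset G)), ∃ F : Finset G, K n ⊆ (F : Set G) * σ l := by
      intro n l
      obtain ⟨ε, hε, hsub⟩ := h.basis _ (hσ l)
      obtain ⟨F, hF⟩ := hKb n ε hε
      refine ⟨F, fun g hg => ?_⟩
      obtain ⟨f, hf, hfg⟩ := hF g hg
      rw [h.one] at hfg
      exact ⟨f, hf, f⁻¹ * g, hsub hfg, by simp⟩
    choose c hc using h1
    let L : ℕ → List (Finset G) := fun n => Nat.rec [] (fun n l => l ++ [c n l]) n
    have hL : ∀ n, (List.range n).map (fun n => c n (L n)) = L n := by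
      intro n
      induction n with
      | zero => rfl
      | succ n ih => rw [List.range_succ, List.map_append, ih]; rfl
    apply hwin fun n => c n (L n)
    rw [eq_univ_iff_forall]
    intro x
    obtain ⟨n, hn⟩ := mem_iUnion.1 (hK (mem_univ x))
    refine mem_iUnion.2 ⟨n, ?_⟩
    rw [hL]
    exact hc n _ hn
  · exfalso
    obtain ⟨F, hF'⟩ := hG (fun n => {g | d 1 g < c / (n + 1)}) fun n => h.ball _ (by positivity)
    obtain ⟨g, hg⟩ := hF F
    obtain ⟨n, f, hf, v, hv, rfl⟩ : ∃ n, g ∈ (F n : Set G) * {g | d 1 g < c / (n + 1)} :=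
      mem_iUnion.1 (hF' ▸ mem_univ g)
    have h3 := hg n f hf
    rw [h.one] at h3
    simp only [inv_mul_cancel_left] at h3
    exact absurd hv (not_lt.2 h3)

end Pool.Agent.Results.MP_b00c97_gt.Analytic
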